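import Pool.Agent.H20.EggertGeneric

set_option autoImplicit false

namespace Pool.Agent.Results.MP_b2678d_al.CommutativeRank

open Module Pool.Agent.H20.Eggert

/-- a commutative group generated by a finite set of elements of exponent `p`. -/
lemma closure_subset {G : Type*} [CommGroup G] (p : ℕ) (hp : 0 < p) (s : Finset G)
    (hs : ∀ g ∈ s, g ^ p = 1) :
    ∃ t : Finset G, (∀ x ∈ Subgroup.closure (s : Set G), x ∈ t) ∧ t.card ≤ p ^ s.card := by
  classical
  induction s using Finset.induction_on with
  | empty => exact ⟨{1}, by simp, by simp⟩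
  | insert g s hgs ih =>
    obtain ⟨t, ht, htc⟩ := ih fun g hg => hs g (Finset.mem_insert_of_mem hg)
    refine ⟨Finset.image₂ (fun x y => x * y) ((Finset.range p).image fun i => g ^ i) t, ?_, ?_⟩
    · intro x hx
      rw [Finset.coe_insert, Set.insert_eq, Subgroup.closure_union, Subgroup.mem_sup] at hx
      obtain ⟨y, hy, w, hw, rfl⟩ := hx
      rw [Subgroup.mem_closure_singleton] at hy
      obtain ⟨n, rfl⟩ := hy
      rw [Finset.mem_image₂]
      refine ⟨g ^ n, ?_, w, ht w hw, rfl⟩
      rw [Finset.mem_image]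
      have hg := hs g (Finset.mem_insert_self g s)
      have hp' : (0 : ℤ) < p := by exact_mod_cast hp
      refine ⟨(n % p).toNat, ?_, ?_⟩
      · rw [Finset.mem_range]
        have h1 := Int.emod_lt_of_pos n hp'
        have h2 := Int.emod_nonneg n hp'.ne'
        omega
      · have h2 := Int.emod_nonneg n hp'.ne'
        rw [← zpow_natCast, Int.toNat_of_nonneg h2]
        conv_rhs => rw [← Int.mul_ediv_add_emod n p, zpow_add, zpow_mul, zpow_natCast, hg, one_zpow,
          one_mul]
    · rw [Finset.card_insert_of_notMem hgs, pow_succ']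
      refine (Finset.card_image₂_le _ _ _).trans (Nat.mul_le_mul ?_ htc)
      exact Finset.card_image_le.trans (by simp)

/-- **Commutative case of the problem, with `h(p) = (p - 1)/(p + 1)`.**  Let `A` be a finite commutative
`F_p`-algebra and `V` a nilpotent subalgebra (not nec. unital).  Then the adjoint group of `V`,
realised as `1 + V`, has a subgroup `H` each generating set of which has at least
`(p - 1)/(p + 1) * dim V` elements. -/
theorem result (p : ℕ) (hp : p.Prime) (A : Type*) [CommRing A] [Algebra (ZMod p) A]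
    [Module.Finite (ZMod p) A] (V : Submodule (ZMod p) A) (hV : V * V ≤ V)
    (hn : ∃ n : ℕ, V ^ n = ⊥) :
    ∃ H : Subgroup Aˣ, H ≤ Subgroup.closure {u : Aˣ | ((u : Aˣ) : A) - 1 ∈ V} ∧
      ∀ s : Finset Aˣ, Subgroup.closure (s : Set Aˣ) = H →
        (((p : ℝ) - 1) / (p + 1)) * (Module.finrank (ZMod p) V : ℝ) ≤ (s.card : ℝ) := by
  classical
  have : Fact p.Prime := ⟨hp⟩
  have hV' : ∀ x ∈ V, ∀ y ∈ V, x * y ∈ V := fun x hx y hy => hV (Submodule.mul_mem_mul hx hy)
  obtain ⟨n, hn⟩ := hn
  have hnil : ∀ x ∈ V, IsNilpotent x := fun x hx => ⟨n, by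
    have h1 := Submodule.pow_mem_pow V hx n
    rw [hn] at h1
    exact (Submodule.mem_bot _).1 h1⟩
  have hmain := weak_eggert p V hV' hnil
  -- the Frobenius map
  have hadd : ∀ x y : A, (x + y) ^ p = x ^ p + y ^ p := by
    rcases subsingleton_or_nontrivial A with hA | hA
    · intro x y; exact Subsingleton.elim _ _
    · have : CharP A p := charP_of_injective_algebraMap (algebraMap (ZMod p) A).injective p
      intro x y; exact add_pow_char x y p
  let φ : V →ₗ[ZMod p] A :=
    { toFun := fun x => (x : A) ^ p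
      map_add' := fun x y => by simp [hadd]
      map_smul' := fun c x => by simp [smul_pow] }
  have hφ : LinearMap.range φ = Submodule.span (ZMod p) ((fun x => x ^ p) '' (V : Set A)) := by
    apply le_antisymm
    · rintro _ ⟨x, rfl⟩
      exact Submodule.subset_span ⟨x, x.2, rfl⟩
    · rw [Submodule.span_le]
      rintro _ ⟨x, hx, rfl⟩
      exact ⟨⟨x, hx⟩, rfl⟩
  have hrn := φ.finrank_range_add_finrank_ker
  rw [hφ] at hrn
  -- the subgroup
  let H : Subgroup Aˣ :=
    { carrier := {u : Aˣ | (u : A) - 1 ∈ V ∧ u ^ p = 1}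
      one_mem' := by simp
      mul_mem' := by
        rintro u v ⟨hu, hu'⟩ ⟨hv, hv'⟩
        refine ⟨?_, by rw [mul_pow, hu', hv', one_mul]⟩
        have h1 : ((u * v : Aˣ) : A) - 1 = ((u : A) - 1) * ((v : A) - 1) + ((u : A) - 1) +
          ((v : A) - 1) := by push_cast; ring
        rw [h1]
        exact V.add_mem (V.add_mem (hV' _ hu _ hv) hu) hv
      inv_mem' := by
        rintro u ⟨hu, hu'⟩
        have hpow : ∀ k : ℕ, ((u ^ k : Aˣ) : A) - 1 ∈ V := by
          intro k
          induction k with
          | zero => simp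
          | succ k ih =>
            have h1 : ((u ^ (k + 1) : Aˣ) : A) - 1 = (((u ^ k : Aˣ) : A) - 1) * ((u : A) - 1) +
              (((u ^ k : Aˣ) : A) - 1) + ((u : A) - 1) := by push_cast; ring
            rw [h1]
            exact V.add_mem (V.add_mem (hV' _ ih _ hu) ih) hu
        have h2 : u⁻¹ = u ^ (p - 1) := by
          rw [inv_eq_iff_mul_eq_one, ← pow_succ', Nat.sub_add_cancel hp.one_le, hu']
        refine ⟨?_, by rw [inv_pow, hu', inv_one]⟩
        rw [h2]
        exact hpow _ }
  refine ⟨H, fun u hu => Subgroup.subset_closure hu.1, ?_⟩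
  intro s hs
  have hsp : ∀ g ∈ s, g ^ p = 1 := by
    intro g hg
    have h1 : g ∈ H := by rw [← hs]; exact Subgroup.subset_closure hg
    exact h1.2
  obtain ⟨t, ht, htc⟩ := closure_subset p hp.pos s hsp
  rw [hs] at ht
  -- injection from the kernel of `φ`
  have hunit : ∀ x : LinearMap.ker φ, IsUnit (1 + ((x : V) : A)) := fun x =>
    (hnil _ (x : V).2).isUnit_one_add
  have hcard : Nat.card (LinearMap.ker φ) ≤ t.card := by
    have : Finite (LinearMap.ker φ) := Module.finite_of_finite (ZMod p)
    let f : LinearMap.ker φ → t := fun x => ⟨(hunit x).unit, ht _ (by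
      refine ⟨?_, ?_⟩
      · rw [IsUnit.unit_spec]; simp
      · apply Units.ext
        rw [Units.val_pow_eq_pow_val, IsUnit.unit_spec, hadd, one_pow]
        have h1 : φ (x : V) = 0 := x.2
        have h2 : ((x : V) : A) ^ p = 0 := h1
        rw [h2, add_zero, Units.val_one])⟩
    have hf : Function.Injective f := by
      intro x y hxy
      have h1 : ((f x : Aˣ) : A) = ((f y : Aˣ) : A) := by rw [hxy]
      have h2 : 1 + ((x : V) : A) = 1 + ((y : V) : A) := h1
      exact Subtype.ext (Subtype.ext (add_left_cancel h2))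
    have h3 := Nat.card_le_card_of_injective f hf
    simpa using h3
  have hker : Nat.card (LinearMap.ker φ) = p ^ finrank (ZMod p) (LinearMap.ker φ) := by
    rw [Module.natCard_eq_pow_finrank (K := ZMod p)]
    simp
  have hle : finrank (ZMod p) (LinearMap.ker φ) ≤ s.card := by
    have h1 : p ^ finrank (ZMod p) (LinearMap.ker φ) ≤ p ^ s.card := by
      rw [← hker]; exact hcard.trans htc
    exact (Nat.pow_le_pow_iff_right hp.one_lt).1 h1
  have hN : (p - 1) * finrank (ZMod p) V ≤ (p + 1) * s.card := by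
    have h1 := Nat.mul_le_mul_left (p + 1) hle
    obtain ⟨q, hq⟩ : ∃ q, p = q + 1 := ⟨p - 1, by have := hp.one_le; omega⟩
    generalize finrank (ZMod p) (Submodule.span (ZMod p) ((fun x => x ^ p) '' (V : Set A))) = a
      at hmain hrn
    generalize finrank (ZMod p) (LinearMap.ker φ) = c at hrn h1
    generalize finrank (ZMod p) V = N at hmain hrn ⊢
    generalize s.card = r at h1 ⊢
    clear * - hmain hrn h1 hq
    subst hq
    simp only [Nat.add_sub_cancel]
    nlinarith
  have hp1 : (0 : ℝ) < (p : ℝ) + 1 := by positivity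
  rw [div_mul_eq_mul_div, div_le_iff₀ hp1]
  have h5 : (((p - 1 : ℕ) : ℝ)) * (finrank (ZMod p) V : ℝ) ≤ ((p : ℝ) + 1) * (s.card : ℝ) := by
    exact_mod_cast hN
  rw [Nat.cast_sub hp.one_le, Nat.cast_one] at h5
  linarith

end Pool.Agent.Results.MP_b2678d_al.CommutativeRank
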