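import Pool.Agent.H20.PowerfulRank

/-!
# The rank of a powerful adjoint group is at least a quarter of the dimension

`R` is a finite-dimensional nilpotent associative algebra (without identity) over a finite field
of characteristic `p`.  Mathlib's `PreQuasiregular R` is `R` with the operation
`x * y := y + x + x y`; its group of units is the adjoint group of `R` (for nilpotent `R` every
element is such a unit, see `isQuasiregular_of_nilpotent` below).
-/

set_option autoImplicit false

namespace Pool.Agent.Results.MP_b2678d_al.RankAtLeastQuarter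

open Module

/-- the product `x 0 * x 1 * ... * x m` of `m + 1` elements of a ring without identity. -/
def chainProd {R : Type*} [NonUnitalRing R] (x : ℕ → R) : ℕ → R
  | 0 => x 0
  | m + 1 => chainProd x m * x (m + 1)

/-- `R` is nilpotent: for some `m` all products of `m + 1` elements of `R` vanish. -/
def IsNilpotentRing (R : Type*) [NonUnitalRing R] : Prop :=
  ∃ m : ℕ, ∀ x : ℕ → R, chainProd x m = 0

/-- the adjoint group of `R`: the invertible elements of `R` for the operation
`(x, y) ↦ y + x + x * y`. -/
abbrev AdjointGroup (R : Type*) [NonUnitalRing R] : Type _ := (PreQuasiregular R)ˣ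

/-- `G` is powerful in the sense of Lubotzky and Mann (`G` a finite `p`-group): `[G, G]` is
contained in the subgroup generated by all `p`-th powers (all fourth powers if `p = 2`). -/
def IsPowerful (p : ℕ) (G : Type*) [Group G] : Prop :=
  commutator G ≤ Subgroup.closure {x : G | ∃ g : G, g ^ (if p = 2 then 4 else p) = x}

/-- the Pruefer rank of a finite group: the least `r` such that every subgroup is generated by
at most `r` elements. -/
noncomputable def pruferRank (G : Type*) [Group G] : ℕ :=
  sInf {r : ℕ | ∀ H : Subgroup G, ∃ s : Finset G, s.card ≤ r ∧ Subgroup.closure (s : Set G) = H}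

lemma chainProd_congr {R : Type*} [NonUnitalRing R] (x y : ℕ → R) (m : ℕ)
    (h : ∀ i ≤ m, x i = y i) : chainProd x m = chainProd y m := by
  induction m with
  | zero => exact h 0 le_rfl
  | succ m ih =>
    change chainProd x m * x (m + 1) = chainProd y m * y (m + 1)
    rw [ih fun i hi => h i (hi.trans (Nat.le_succ m)), h (m + 1) le_rfl]

/-- the least `r` exists for finite groups. -/
lemma pruferRank_spec (G : Type*) [Group G] [Finite G] (H : Subgroup G) :
    ∃ s : Finset G, s.card ≤ pruferRank G ∧ Subgroup.closure (s : Set G) = H := by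
  classical
  have hne : {r : ℕ | ∀ H : Subgroup G, ∃ s : Finset G, s.card ≤ r ∧
      Subgroup.closure (s : Set G) = H}.Nonempty := by
    have := Fintype.ofFinite G
    refine ⟨Fintype.card G, fun K => ⟨(K : Set G).toFinite.toFinset, Finset.card_le_univ _, ?_⟩⟩
    rw [Set.Finite.coe_toFinset, Subgroup.closure_eq]
  exact Nat.sInf_mem hne H

section
variable {K R : Type*} [Field K] [NonUnitalRing R] [Module K R] [IsScalarTower K R R]
  [SMulCommClass K R R]

/-- `R` inside its unitization. -/
def img (K R : Type*) [Field K] [NonUnitalRing R] [Module K R] [IsScalarTower K R R]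
    [SMulCommClass K R R] : Submodule K (Unitization K R) :=
  LinearMap.range (Unitization.inrHom K K R)

lemma mem_img {u : Unitization K R} : u ∈ img K R ↔ u.fst = 0 := by
  constructor
  · rintro ⟨a, rfl⟩
    simp
  · intro h
    refine ⟨u.snd, ?_⟩
    apply Unitization.ext
    · change (Unitization.inr u.snd : Unitization K R).fst = u.fst
      rw [Unitization.fst_inr, h]
    · change (Unitization.inr u.snd : Unitization K R).snd = u.snd
      rw [Unitization.snd_inr]

lemma img_mul_le : img K R * img K R ≤ img K R := by
  rw [Submodule.mul_le]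
  rintro _ ⟨a, rfl⟩ _ ⟨b, rfl⟩
  exact ⟨a * b, by simp⟩

lemma img_pow_le (k : ℕ) : (img K R) ^ (k + 1) ≤
    Submodule.span K {y | ∃ x : ℕ → R, y = (Unitization.inr (chainProd x k) : Unitization K R)} := by
  induction k with
  | zero =>
    rw [zero_add, pow_one]
    rintro _ ⟨a, rfl⟩
    exact Submodule.subset_span ⟨fun _ => a, rfl⟩
  | succ k ih =>
    rw [pow_succ]
    have h1 : img K R ≤ Submodule.span K (Set.range (Unitization.inr : R → Unitization K R)) := by
      rintro _ ⟨a, rfl⟩
      exact Submodule.subset_span ⟨a, rfl⟩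
    refine (mul_le_mul' ih h1).trans ?_
    rw [Submodule.span_mul_span]
    apply Submodule.span_mono
    rintro _ ⟨_, ⟨x, rfl⟩, _, ⟨b, rfl⟩, rfl⟩
    refine ⟨fun i => if i ≤ k then x i else b, ?_⟩
    change (Unitization.inr (chainProd x k) : Unitization K R) * Unitization.inr b =
      Unitization.inr (chainProd (fun i => if i ≤ k then x i else b) k *
        (if k + 1 ≤ k then x (k + 1) else b))
    rw [if_neg (by omega), Unitization.inr_mul,
      chainProd_congr (fun i => if i ≤ k then x i else b) x k fun i hi => if_pos hi]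

lemma img_nilpotent (h : IsNilpotentRing R) : ∃ n : ℕ, (img K R) ^ n = ⊥ := by
  obtain ⟨m, hm⟩ := h
  refine ⟨m + 1, ?_⟩
  rw [eq_bot_iff]
  refine (img_pow_le m).trans ?_
  rw [Submodule.span_le]
  rintro _ ⟨x, rfl⟩
  rw [hm x]
  simp

/-- the unit group of the unitization with scalar part one is generated by `1 + R`. -/
lemma G_img (h : IsNilpotentRing R) :
    Pool.Agent.H20.Powerful.G (img K R) = Unitization.unitsFstOne K R := by
  obtain ⟨n, hn⟩ := img_nilpotent (K := K) h
  ext u
  have h1 : u ∈ Pool.Agent.H20.Powerful.G (img K R) ↔ (u : Unitization K R) - 1 ∈ img K R :=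
    Pool.Agent.H20.Powerful.mem_G (F := K) (A := Unitization K R) (V := img K R)
      (img_mul_le (K := K) (R := R)) hn
  have h2 : ((u : Unitization K R) - 1).fst = (u : Unitization K R).fst - 1 := rfl
  rw [h1, mem_img, h2, sub_eq_zero]
  exact Iff.rfl

/-- the adjoint group inside the units of the unitization. -/
noncomputable def emb (K R : Type*) [Field K] [NonUnitalRing R] [Module K R] [IsScalarTower K R R]
    [SMulCommClass K R R] : AdjointGroup R →* (Unitization K R)ˣ :=
  (Unitization.unitsFstOne K R).subtype.comp
    (Unitization.unitsFstOne_mulEquiv_quasiregular (A := R) K).symm.toMonoidHom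

lemma emb_range : (emb K R).range = Unitization.unitsFstOne K R := by
  rw [emb, MonoidHom.range_comp,
    MonoidHom.range_eq_top.2 (Unitization.unitsFstOne_mulEquiv_quasiregular (A := R) K).symm.surjective,
    ← MonoidHom.range_eq_map, Subgroup.range_subtype]

end

/-- the prime field case. -/
lemma rank_zmod (p : ℕ) (hp : p.Prime) (R : Type*) [NonUnitalRing R] [Module (ZMod p) R]
    [IsScalarTower (ZMod p) R R] [SMulCommClass (ZMod p) R R] [Finite R]
    (hnil : IsNilpotentRing R) (hpow : IsPowerful p (AdjointGroup R)) :
    finrank (ZMod p) R ≤ 4 * pruferRank (AdjointGroup R) := by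
  classical
  have hfact : Fact p.Prime := ⟨hp⟩
  have hfinA : Finite (Unitization (ZMod p) R) := Finite.of_equiv _ Unitization.equiv.symm
  have hmf : Module.Finite (ZMod p) (Unitization (ZMod p) R) := inferInstance
  have hfinQ : Finite (AdjointGroup R) := by
    have h1 : Finite (PreQuasiregular R) := Finite.of_equiv _ PreQuasiregular.equiv
    exact inferInstance
  set V := img (ZMod p) R with hV
  have hG : Pool.Agent.H20.Powerful.G V = (emb (ZMod p) R).range := by
    rw [emb_range]; exact G_img hnil
  set e := if p = 2 then 4 else p with he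
  have hcomm : ⁅Pool.Agent.H20.Powerful.G V, Pool.Agent.H20.Powerful.G V⁆ ≤
      Subgroup.closure {x : (Unitization (ZMod p) R)ˣ |
        ∃ g ∈ Pool.Agent.H20.Powerful.G V, g ^ e = x} := by
    rw [hG, MonoidHom.range_eq_map, ← Subgroup.map_commutator]
    refine (Subgroup.map_mono hpow).trans ?_
    rw [MonoidHom.map_closure]
    apply Subgroup.closure_mono
    rintro _ ⟨_, ⟨g, rfl⟩, rfl⟩
    exact ⟨emb (ZMod p) R g, ⟨g, trivial, rfl⟩, (map_pow _ _ _).symm⟩
  have key : ∃ H : Subgroup (Unitization (ZMod p) R)ˣ, H ≤ Pool.Agent.H20.Powerful.G V ∧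
      ∀ s : Finset (Unitization (ZMod p) R)ˣ,
        Subgroup.closure (s : Set (Unitization (ZMod p) R)ˣ) = H →
        finrank (ZMod p) V ≤ 4 * s.card := by
    by_cases h2 : p = 2
    · exact Pool.Agent.H20.Powerful.rank_bound (k := 2) V img_mul_le (img_nilpotent hnil)
        (e := e) (by rw [he, if_pos h2, h2]; rfl) (by rw [h2]; norm_num) hcomm
    · exact Pool.Agent.H20.Powerful.rank_bound (k := 1) V img_mul_le (img_nilpotent hnil)
        (e := e) (by rw [he, if_neg h2, pow_one])
        (by rw [pow_one]; have := hp.two_le; omega) hcomm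
  obtain ⟨H, hH, hs⟩ := key
  obtain ⟨s, hsr, hscl⟩ := pruferRank_spec (AdjointGroup R) (H.comap (emb (ZMod p) R))
  have h1 : Subgroup.closure ((s.image (emb (ZMod p) R) : Finset (Unitization (ZMod p) R)ˣ) :
      Set (Unitization (ZMod p) R)ˣ) = H := by
    rw [Finset.coe_image, ← MonoidHom.map_closure, hscl, Subgroup.map_comap_eq, ← hG]
    exact inf_eq_right.2 hH
  have h2 := hs _ h1
  have h3 : finrank (ZMod p) V = finrank (ZMod p) R :=
    LinearMap.finrank_range_of_inj (Unitization.inrHom_injective)
  rw [h3] at h2
  have h4 : (s.image (emb (ZMod p) R)).card ≤ s.card := Finset.card_image_le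
  omega

/-- in a nilpotent algebra every element lies in the adjoint group. -/
theorem isQuasiregular_of_nilpotent {K R : Type*} [Field K] [NonUnitalRing R] [Module K R]
    [IsScalarTower K R R] [SMulCommClass K R R] (h : IsNilpotentRing R) (x : R) :
    IsQuasiregular x := by
  rw [isQuasiregular_iff_isUnit' K]
  obtain ⟨n, hn⟩ := img_nilpotent (K := K) h
  refine IsNilpotent.isUnit_one_add ⟨n, ?_⟩
  exact Pool.Agent.H20.Powerful.pow_eq_zero_of_mem hn ⟨x, rfl⟩

/-- the dimension over `F` is at most the dimension over the prime field. -/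
lemma finrank_le (p : ℕ) (hp : p.Prime) (F : Type*) [Field F] [Finite F] [CharP F p]
    (R : Type*) [AddCommGroup R] [Module F R] [Module.Finite F R] [Module (ZMod p) R] :
    finrank F R ≤ finrank (ZMod p) R := by
  have hfact : Fact p.Prime := ⟨hp⟩
  have hfinR : Finite R := Module.finite_of_finite F
  have h2 : Nat.card R = Nat.card F ^ finrank F R := Module.natCard_eq_pow_finrank (K := F)
  have h3 : Nat.card R = Nat.card (ZMod p) ^ finrank (ZMod p) R :=
    Module.natCard_eq_pow_finrank (K := ZMod p)
  rw [Nat.card_zmod] at h3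
  have h4 : p ≤ Nat.card F := by
    have h5 : Function.Injective (ZMod.castHom (dvd_refl p) F) := RingHom.injective _
    have h6 := Nat.card_le_card_of_injective _ h5
    rwa [Nat.card_zmod] at h6
  have h5 : p ^ finrank F R ≤ p ^ finrank (ZMod p) R := by
    rw [← h3, h2]
    exact Nat.pow_le_pow_left h4 _
  exact (Nat.pow_le_pow_iff_right hp.one_lt).1 h5

/-- **Q1 of MP_b2678d_al, with `h(p) = 1/4` for all `p`.** -/
theorem result (p : ℕ) (hp : p.Prime) (F : Type*) [Field F] [Finite F] [CharP F p]
    (R : Type*) [NonUnitalRing R] [Module F R] [IsScalarTower F R R] [SMulCommClass F R R]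
    [Module.Finite F R] (hnil : IsNilpotentRing R) (hpow : IsPowerful p (AdjointGroup R)) :
    finrank F R ≤ 4 * pruferRank (AdjointGroup R) := by
  have hfact : Fact p.Prime := ⟨hp⟩
  have hfinR : Finite R := Module.finite_of_finite F
  have hp0 : ∀ x : R, p • x = 0 := fun x => by
    rw [← Nat.cast_smul_eq_nsmul F, CharP.cast_eq_zero, zero_smul]
  let _ : Module (ZMod p) R := AddCommGroup.zmodModule hp0
  have : IsScalarTower (ZMod p) R R := ⟨fun c x y =>
    (ZMod.map_smul (AddMonoidHom.mulRight y) c x)⟩
  have : SMulCommClass (ZMod p) R R := ⟨fun c x y =>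
    (ZMod.map_smul (AddMonoidHom.mulLeft x) c y).symm⟩
  have h1 := rank_zmod p hp R hnil hpow
  exact (finrank_le p hp F R).trans h1

end Pool.Agent.Results.MP_b2678d_al.RankAtLeastQuarter
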